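import Mathlib

/-!
# A complex symmetric matrix, unitarily equivalent to a truncated Toeplitz operator, which is not
the matrix of a truncated Toeplitz operator in a modified Aleksandrov-Clark basis

In a modified Aleksandrov-Clark basis the entries off the diagonal of a truncated Toeplitz operator
are `C i j * (x j - x i)` with `C i j ≠ 0`. So `m 0 1 = 0` and `m 1 2 = 0` imply `m 0 2 = 0`. The
matrix `M` with `m 0 2 = m 2 0 = 1` and all other entries `0` is the matrix of the truncated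
Toeplitz operator with symbol `(z + conj z) / √2` on the model space of `z ^ 3` in the orthonormal
basis `z, (1 - z ^ 2) / √2, (1 + z ^ 2) / √2`.
-/

set_option autoImplicit false
set_option linter.unusedSimpArgs false

open MeasureTheory Set Complex

namespace Pool.Agent.Results.MP_3119c3_an.NotFromClarkBasis

/-- The finite Blaschke product with zeros `a 0, ..., a (n - 1)` and constant factor `γ`. -/
noncomputable def blaschke {n : ℕ} (γ : ℂ) (a : Fin n → ℂ) (z : ℂ) : ℂ :=
  γ * ∏ j, (z - a j) / (1 - star (a j) * z)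

/-- The model space `H² ⊖ Θ H²` of the finite Blaschke product `Θ` with zeros `a`: the functions
`p / ∏ (1 - conj (a j) z)` with `p` a polynomial of degree less than `n`. -/
def modelSpace {n : ℕ} (a : Fin n → ℂ) : Set (ℂ → ℂ) :=
  {f | ∃ p : Polynomial ℂ, p.degree < (n : ℕ) ∧ f = fun z => p.eval z / ∏ j, (1 - star (a j) * z)}

/-- The inner product of `L²` of the unit circle with normalised arc length. -/
noncomputable def inner2 (f g : ℂ → ℂ) : ℂ :=
  (1 / (2 * (Real.pi : ℂ))) * ∫ t in (0 : ℝ)..(2 * Real.pi),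
    f (exp ((t : ℂ) * I)) * star (g (exp ((t : ℂ) * I)))

/-- `φ` is a bounded measurable symbol on the unit circle. -/
def IsSymbol (φ : ℂ → ℂ) : Prop :=
  MemLp (fun t : ℝ => φ (exp ((t : ℂ) * I))) ⊤ (volume.restrict (Ioc 0 (2 * Real.pi)))

/-- The matrix of the truncated Toeplitz operator with symbol `φ` in the orthonormal basis `e` of
the model space: its entries are `⟨A e_j, e_i⟩ = ⟨φ e_j, e_i⟩`. -/
noncomputable def ttoMatrix {n : ℕ} (φ : ℂ → ℂ) (e : Fin n → ℂ → ℂ) : Matrix (Fin n) (Fin n) ℂ :=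
  Matrix.of fun i j => inner2 (fun z => φ z * e j z) (e i)

/-- `M` is unitarily equivalent to a truncated Toeplitz operator: it is the matrix of a truncated
Toeplitz operator in some orthonormal basis of the model space of a finite Blaschke product. -/
def UnitarilyEquivalentToTTO {n : ℕ} (M : Matrix (Fin n) (Fin n) ℂ) : Prop :=
  ∃ (a : Fin n → ℂ) (φ : ℂ → ℂ) (e : Fin n → ℂ → ℂ), (∀ j, ‖a j‖ < 1) ∧ IsSymbol φ ∧
    (∀ j, e j ∈ modelSpace a) ∧ (∀ i j, inner2 (e j) (e i) = if i = j then 1 else 0) ∧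
    ttoMatrix φ e = M

/-- The boundary kernel of `Θ` at `ζ` for the value `α`. -/
noncomputable def kern (Θ : ℂ → ℂ) (α ζ z : ℂ) : ℂ := (1 - star α * Θ z) / (1 - star ζ * z)

/-- `e` is a modified Aleksandrov-Clark basis for the inner function `Θ`: for some `α` on the
circle and an enumeration `ζ` of the solutions of `Θ ζ = α` on the circle, `e j` is
`w j * k_{ζ j} / ‖k_{ζ j}‖` with `w j ^ 2 = α * conj (ζ j)`. -/
def IsModifiedClarkBasis {n : ℕ} (Θ : ℂ → ℂ) (e : Fin n → ℂ → ℂ) : Prop :=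
  ∃ (α : ℂ) (ζ w : Fin n → ℂ), ‖α‖ = 1 ∧ (∀ j, ‖ζ j‖ = 1) ∧ Function.Injective ζ ∧
    (∀ j, Θ (ζ j) = α) ∧ (∀ j, w j ^ 2 = α * star (ζ j)) ∧
    ∀ j, e j = fun z => w j * kern Θ α (ζ j) z /
      ((Real.sqrt (inner2 (kern Θ α (ζ j)) (kern Θ α (ζ j))).re : ℝ) : ℂ)

/-- `M` is the matrix of a truncated Toeplitz operator in a modified Aleksandrov-Clark basis. -/
def FromClarkBasis {n : ℕ} (M : Matrix (Fin n) (Fin n) ℂ) : Prop :=
  ∃ (γ : ℂ) (a : Fin n → ℂ) (φ : ℂ → ℂ) (e : Fin n → ℂ → ℂ), ‖γ‖ = 1 ∧ (∀ j, ‖a j‖ < 1) ∧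
    IsSymbol φ ∧ IsModifiedClarkBasis (blaschke γ a) e ∧ ttoMatrix φ e = M

/-- the example -/
def M₀ : Matrix (Fin 3) (Fin 3) ℂ := !![0, 0, 1; 0, 0, 0; 1, 0, 0]

/-! ### The kernels are bounded and not null -/

section kernels

variable {n : ℕ} {γ α ζ : ℂ} {a : Fin n → ℂ}

theorem star_mul_self_of_norm_one {w : ℂ} (h : ‖w‖ = 1) : star w * w = 1 := by
  rw [Complex.star_def, mul_comm, Complex.mul_conj, Complex.normSq_eq_norm_sq, h]
  norm_num

theorem den_ne (ha : ∀ j, ‖a j‖ < 1) {z : ℂ} (hz : ‖z‖ ≤ 1) (j : Fin n) :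
    1 - star (a j) * z ≠ 0 := by
  intro h
  have h1 : star (a j) * z = 1 := (sub_eq_zero.1 h).symm
  have h2 : ‖star (a j) * z‖ = 1 := by rw [h1, norm_one]
  rw [norm_mul, norm_star] at h2
  nlinarith [ha j, norm_nonneg z, norm_nonneg (a j)]

theorem blaschke_diff (ha : ∀ j, ‖a j‖ < 1) {z : ℂ} (hz : ‖z‖ ≤ 1) :
    DifferentiableAt ℂ (blaschke γ a) z := by
  unfold blaschke
  refine DifferentiableAt.const_mul ?_ _
  refine DifferentiableAt.fun_finsetProd fun j _ => ?_
  exact DifferentiableAt.div (by fun_prop) (by fun_prop) (den_ne ha hz j)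

theorem norm_exp_I (t : ℝ) : ‖exp ((t : ℂ) * I)‖ = 1 := Complex.norm_exp_ofReal_mul_I t

/-- the kernel on the circle away from `ζ` is a continuous function -/
theorem kern_eq (hζ : ‖ζ‖ = 1) (hα : ‖α‖ = 1) (hΘ : blaschke γ a ζ = α) {z : ℂ} (hz : z ≠ ζ) :
    kern (blaschke γ a) α ζ z = star α * ζ * dslope (blaschke γ a) ζ z := by
  rw [dslope_of_ne _ hz, slope_def_field, kern, hΘ]
  have h1 : 1 - star ζ * z = -star ζ * (z - ζ) := by
    have := star_mul_self_of_norm_one hζ
    rw [mul_sub, neg_mul, neg_mul, this]; ring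
  have h2 : 1 - star α * blaschke γ a z = -star α * (blaschke γ a z - α) := by
    have := star_mul_self_of_norm_one hα
    rw [mul_sub, neg_mul, neg_mul, this]; ring
  have h3 : star ζ ≠ 0 := by
    rw [Ne, star_eq_zero, ← norm_eq_zero, hζ]; exact one_ne_zero
  have h4 : z - ζ ≠ 0 := sub_ne_zero.2 hz
  have h5 := star_mul_self_of_norm_one hζ
  rw [h1, h2, div_eq_iff (mul_ne_zero (neg_ne_zero.2 h3) h4)]
  field_simp
  linear_combination (star α * (blaschke γ a z - α)) * h5

theorem dslope_cont (ha : ∀ j, ‖a j‖ < 1) (hζ : ‖ζ‖ = 1) :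
    Continuous fun t : ℝ => dslope (blaschke γ a) ζ (exp ((t : ℂ) * I)) := by
  rw [continuous_iff_continuousAt]
  intro t
  have hc : ContinuousAt (dslope (blaschke γ a) ζ) (exp ((t : ℂ) * I)) := by
    by_cases h : exp ((t : ℂ) * I) = ζ
    · rw [h]
      exact continuousAt_dslope_same.2 (blaschke_diff ha hζ.le)
    · exact (continuousAt_dslope_of_ne h).2 (blaschke_diff ha (norm_exp_I t).le).continuousAt
  exact ContinuousAt.comp (f := fun t : ℝ => exp ((t : ℂ) * I)) hc (by fun_prop)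

theorem ae_ne (ζ : ℂ) : ∀ᵐ t : ℝ ∂(volume.restrict (Ioc 0 (2 * Real.pi))),
    exp ((t : ℂ) * I) ≠ ζ := by
  have hcount : (({t : ℝ | exp ((t : ℂ) * I) = ζ}) : Set ℝ).Countable := by
    by_cases hne : ({t : ℝ | exp ((t : ℂ) * I) = ζ}).Nonempty
    · obtain ⟨t₀, ht₀⟩ := hne
      refine (countable_range fun k : ℤ => t₀ + k * (2 * Real.pi)).mono ?_
      intro t ht
      have h1 : exp ((t : ℂ) * I) = exp ((t₀ : ℂ) * I) := by
        rw [show exp ((t : ℂ) * I) = ζ from ht, show exp ((t₀ : ℂ) * I) = ζ from ht₀]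
      obtain ⟨k, hk⟩ := Complex.exp_eq_exp_iff_exists_int.1 h1
      refine ⟨k, ?_⟩
      have h2 : ((t : ℂ)) * I = ((t₀ + k * (2 * Real.pi) : ℝ) : ℂ) * I := by
        rw [hk]; push_cast; ring
      have h3 := mul_right_cancel₀ Complex.I_ne_zero h2
      exact (Complex.ofReal_inj.1 h3).symm
    · rw [Set.not_nonempty_iff_eq_empty.1 hne]
      exact Set.countable_empty
  have h0 : volume ({t : ℝ | exp ((t : ℂ) * I) = ζ}) = 0 := hcount.measure_zero _
  refine ae_restrict_of_ae ?_
  rw [ae_iff]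
  simpa using h0

/-- the kernel has positive norm -/
theorem kern_pos (ha : ∀ j, ‖a j‖ < 1) (hn : 0 < n) (hα : ‖α‖ = 1) (hζ : ‖ζ‖ = 1)
    (hΘ : blaschke γ a ζ = α) :
    0 < (inner2 (kern (blaschke γ a) α ζ) (kern (blaschke γ a) α ζ)).re := by
  set E : ℝ → ℂ := fun t => dslope (blaschke γ a) ζ (exp ((t : ℂ) * I)) with hE
  have hEc : Continuous E := dslope_cont ha hζ
  have h1 : inner2 (kern (blaschke γ a) α ζ) (kern (blaschke γ a) α ζ) =
      (((1 / (2 * Real.pi)) * ∫ t in (0 : ℝ)..(2 * Real.pi), ‖E t‖ ^ 2 : ℝ) : ℂ) := by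
    rw [inner2]
    push_cast
    congr 1
    rw [← intervalIntegral.integral_ofReal, intervalIntegral.integral_of_le (by positivity),
      intervalIntegral.integral_of_le (by positivity)]
    refine integral_congr_ae ?_
    filter_upwards [ae_ne ζ] with t ht
    rw [kern_eq hζ hα hΘ ht]
    have h2 : star (star α * ζ * dslope (blaschke γ a) ζ (exp ((t : ℂ) * I))) =
        α * star ζ * star (E t) := by
      rw [star_mul', star_mul', star_star]
    rw [h2]
    have h3 : star (E t) * E t = ((‖E t‖ ^ 2 : ℝ) : ℂ) := by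
      rw [Complex.star_def, mul_comm, Complex.mul_conj, Complex.normSq_eq_norm_sq]
    have h4 := star_mul_self_of_norm_one hα
    have h5 := star_mul_self_of_norm_one hζ
    calc star α * ζ * dslope (blaschke γ a) ζ (exp ((t : ℂ) * I)) * (α * star ζ * star (E t))
        = (star α * α) * (star ζ * ζ) * (star (E t) * E t) := by rw [hE]; ring
      _ = _ := by rw [h4, h5, h3]; push_cast; ring
  rw [h1, Complex.ofReal_re]
  have hpi : 0 < 1 / (2 * Real.pi) := by positivity
  refine mul_pos hpi ?_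
  have hnn : 0 ≤ ∫ t in (0 : ℝ)..(2 * Real.pi), ‖E t‖ ^ 2 :=
    intervalIntegral.integral_nonneg (by positivity) fun t _ => by positivity
  refine lt_of_le_of_ne hnn fun h0 => ?_
  -- then `E` vanishes on the interval
  have hzero : ∀ t ∈ Ioo (0 : ℝ) (2 * Real.pi), E t = 0 := by
    intro t ht
    by_contra hne
    have hpos : 0 < ∫ s in (0 : ℝ)..(2 * Real.pi), ‖E s‖ ^ 2 := by
      refine intervalIntegral.integral_pos (by positivity)
        ((continuous_norm.comp hEc).pow 2).continuousOn (fun s _ => by positivity)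
        ⟨t, Ioo_subset_Icc_self ht, ?_⟩
      have : 0 < ‖E t‖ := norm_pos_iff.2 hne
      positivity
    linarith
  -- so the polynomial identity `γ ∏ (z - a j) = α ∏ (1 - conj (a j) z)` holds
  set P : Polynomial ℂ := Polynomial.C γ * ∏ j, (Polynomial.X - Polynomial.C (a j)) -
    Polynomial.C α * ∏ j, (1 - Polynomial.C (star (a j)) * Polynomial.X) with hP
  have hroot : ∀ t ∈ Ioo (0 : ℝ) (2 * Real.pi), P.IsRoot (exp ((t : ℂ) * I)) := by
    intro t ht
    set z := exp ((t : ℂ) * I) with hz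
    have hval : blaschke γ a z = α := by
      by_cases hzζ : z = ζ
      · rw [hzζ, hΘ]
      · have h2 := hzero t ht
        simp only [hE] at h2
        rw [← hz, dslope_of_ne _ hzζ, slope_def_field, div_eq_zero_iff] at h2
        rcases h2 with h2 | h2
        · rw [← hΘ]; exact sub_eq_zero.1 h2
        · exact absurd (sub_eq_zero.1 h2) hzζ
    have hd : ∏ j, (1 - star (a j) * z) ≠ 0 :=
      Finset.prod_ne_zero_iff.2 fun j _ => den_ne ha (norm_exp_I t).le j
    rw [blaschke, Finset.prod_div_distrib, mul_div_assoc', div_eq_iff hd] at hval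
    rw [Polynomial.IsRoot, hP]
    simp only [Polynomial.eval_sub, Polynomial.eval_mul, Polynomial.eval_C, Polynomial.eval_prod,
      Polynomial.eval_X, Polynomial.eval_one]
    rw [hval, sub_self]
  have hP0 : P = 0 := by
    apply Polynomial.eq_zero_of_infinite_isRoot
    have hinj : Set.InjOn (fun t : ℝ => exp ((t : ℂ) * I)) (Ioo (0 : ℝ) (2 * Real.pi)) := by
      intro s hs t ht hst
      obtain ⟨k, hk⟩ := Complex.exp_eq_exp_iff_exists_int.1 hst
      have h2 : ((s : ℂ)) * I = ((t + k * (2 * Real.pi) : ℝ) : ℂ) * I := by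
        rw [hk]; push_cast; ring
      have h3 := Complex.ofReal_inj.1 (mul_right_cancel₀ Complex.I_ne_zero h2)
      have hpi := Real.pi_pos
      have hk0 : k = 0 := by
        have h4 : (k : ℝ) < 1 := by
          by_contra hcon
          push Not at hcon
          nlinarith [hs.2, ht.1]
        have h5 : (-1 : ℝ) < k := by
          by_contra hcon
          push Not at hcon
          nlinarith [hs.1, ht.2]
        have h6 : k < 1 := by exact_mod_cast h4
        have h7 : -1 < k := by exact_mod_cast h5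
        omega
      rw [hk0] at h3
      simpa using h3
    have hinf : (Ioo (0 : ℝ) (2 * Real.pi)).Infinite := Ioo_infinite (by positivity)
    refine (hinf.image hinj).mono ?_
    rintro _ ⟨t, ht, rfl⟩
    exact hroot t ht
  have h2 := congrArg (Polynomial.eval (a ⟨0, hn⟩)) hP0
  rw [hP] at h2
  simp only [Polynomial.eval_sub, Polynomial.eval_mul, Polynomial.eval_C, Polynomial.eval_prod,
      Polynomial.eval_X, Polynomial.eval_one, Polynomial.eval_zero] at h2
  have h3 : ∏ j, (a ⟨0, hn⟩ - a j) = 0 :=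
    Finset.prod_eq_zero (Finset.mem_univ ⟨0, hn⟩) (sub_self _)
  rw [h3, mul_zero, zero_sub, neg_eq_zero, mul_eq_zero] at h2
  rcases h2 with h2 | h2
  · rw [h2, norm_zero] at hα
    exact zero_ne_one hα
  · exact Finset.prod_ne_zero_iff.2 (fun j _ => den_ne ha (ha ⟨0, hn⟩).le j) h2

end kernels

/-! ### The example is not obtained from a modified Clark basis -/

theorem integrable_entry {φ e f : ℂ → ℂ} (hφ : IsSymbol φ) {E F : ℝ → ℂ} (hE : Continuous E)
    (hF : Continuous F)
    (he : ∀ᵐ t : ℝ ∂(volume.restrict (Ioc 0 (2 * Real.pi))), e (exp ((t : ℂ) * I)) = E t)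
    (hf : ∀ᵐ t : ℝ ∂(volume.restrict (Ioc 0 (2 * Real.pi))), f (exp ((t : ℂ) * I)) = F t) :
    Integrable (fun t : ℝ => φ (exp ((t : ℂ) * I)) * e (exp ((t : ℂ) * I)) *
      star (f (exp ((t : ℂ) * I)))) (volume.restrict (Ioc 0 (2 * Real.pi))) := by
  have h1 : Integrable (fun t => E t * star (F t)) (volume.restrict (Ioc 0 (2 * Real.pi))) := by
    have : Continuous fun t => E t * star (F t) := hE.mul (continuous_star.comp hF)
    exact (this.integrableOn_Icc (a := 0) (b := 2 * Real.pi)).mono_set Ioc_subset_Icc_self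
  have h2 := h1.smul_of_top_right hφ
  refine h2.congr ?_
  filter_upwards [he, hf] with t h3 h4
  rw [h3, h4]
  simp only [Pi.smul_apply', smul_eq_mul]
  ring

theorem not_from_clark : ¬ FromClarkBasis M₀ := by
  rintro ⟨γ, a, φ, e, -, ha, hφ, ⟨α, ζ, w, hα, hζ, hinj, hΘ, hw, he⟩, hM⟩
  set Θ := blaschke γ a with hΘdef
  set N : Fin 3 → ℂ := fun j =>
    ((Real.sqrt (inner2 (kern Θ α (ζ j)) (kern Θ α (ζ j))).re : ℝ) : ℂ) with hN
  have hN0 : ∀ j, N j ≠ 0 := by
    intro j
    rw [hN]
    simp only [Ne, Complex.ofReal_eq_zero]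
    exact (Real.sqrt_pos.2 (kern_pos ha (by norm_num) hα (hζ j) (hΘ j))).ne'
  have hw0 : ∀ j, w j ≠ 0 := by
    intro j h0
    have h1 := hw j
    rw [h0] at h1
    have h2 : ‖α * star (ζ j)‖ = 0 := by rw [← h1]; simp
    rw [norm_mul, norm_star, hα, hζ j] at h2
    norm_num at h2
  have hζ0 : ∀ j, ζ j ≠ 0 := by
    intro j h0
    have := hζ j
    rw [h0, norm_zero] at this
    exact zero_ne_one this
  -- continuous representatives
  set E : Fin 3 → ℝ → ℂ := fun j t =>
    w j * (star α * ζ j * dslope Θ (ζ j) (exp ((t : ℂ) * I))) / N j with hE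
  have hEc : ∀ j, Continuous (E j) := by
    intro j
    have := dslope_cont (γ := γ) ha (hζ j)
    exact (continuous_const.mul (continuous_const.mul this)).div_const _
  have hEe : ∀ j, ∀ᵐ t : ℝ ∂(volume.restrict (Ioc 0 (2 * Real.pi))),
      e j (exp ((t : ℂ) * I)) = E j t := by
    intro j
    filter_upwards [ae_ne (ζ j)] with t ht
    rw [he j]
    simp only [hE, hN]
    rw [kern_eq (hζ j) hα (hΘ j) ht]
  have hint : ∀ i j, Integrable (fun t : ℝ => φ (exp ((t : ℂ) * I)) * e j (exp ((t : ℂ) * I)) *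
      star (e i (exp ((t : ℂ) * I)))) (volume.restrict (Ioc 0 (2 * Real.pi))) := fun i j =>
    integrable_entry hφ (hEc j) (hEc i) (hEe j) (hEe i)
  -- the weights
  set D : Fin 3 → Fin 3 → ℂ := fun i j =>
    (ζ j - ζ i) * N j * star (N i) / (-(ζ j) * w j * star (w i)) with hD
  have hD0 : D 0 2 ≠ 0 := by
    simp only [hD]
    refine div_ne_zero (mul_ne_zero (mul_ne_zero (sub_ne_zero.2 fun h => ?_) (hN0 _)) ?_) ?_
    · exact absurd (hinj h) (by decide)
    · exact star_ne_zero.2 (hN0 _)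
    · exact mul_ne_zero (mul_ne_zero (neg_ne_zero.2 (hζ0 _)) (hw0 _)) (star_ne_zero.2 (hw0 _))
  -- pointwise formula
  have hpt : ∀ i j, i ≠ j → ∀ z : ℂ, ‖z‖ = 1 → z ≠ ζ i → z ≠ ζ j →
      D i j * (e j z * star (e i z)) = (1 - star α * Θ z) * star (1 - star α * Θ z) *
        (ζ j / (z - ζ j) - ζ i / (z - ζ i)) := by
    intro i j _ z hz hzi hzj
    have hz0 : z ≠ 0 := by
      rintro rfl
      rw [norm_zero] at hz
      exact zero_ne_one hz
    have hsz : star z = z⁻¹ := by
      have := star_mul_self_of_norm_one hz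
      exact eq_inv_of_mul_eq_one_left this
    have hsj : star (ζ j) = (ζ j)⁻¹ := eq_inv_of_mul_eq_one_left (star_mul_self_of_norm_one (hζ j))
    have hsi : star (ζ i) = (ζ i)⁻¹ := eq_inv_of_mul_eq_one_left (star_mul_self_of_norm_one (hζ i))
    have h1 : e j z = w j * ((1 - star α * Θ z) / (1 - (ζ j)⁻¹ * z)) / N j := by
      rw [he j, ← hsj]
      rfl
    have h2 : star (e i z) = star (w i) * (star (1 - star α * Θ z) / (1 - ζ i * z⁻¹)) / star (N i) := by
      rw [he i]
      have : star (1 - star (ζ i) * z) = 1 - ζ i * z⁻¹ := by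
        rw [star_sub, star_one, star_mul', star_star, hsz]
      rw [← this]
      simp only [kern, star_mul', star_div₀, hN]
    rw [h1, h2]
    generalize hA : (1 - star α * Θ z) = A
    generalize hB : star A = B
    have n1 := hN0 j
    have n2 := star_ne_zero.2 (hN0 i)
    have n3 := hw0 j
    have n4 := star_ne_zero.2 (hw0 i)
    have n5 := hζ0 j
    have n6 : z - ζ j ≠ 0 := sub_ne_zero.2 hzj
    have n7 : z - ζ i ≠ 0 := sub_ne_zero.2 hzi
    have n8 : 1 - (ζ j)⁻¹ * z ≠ 0 := by
      intro h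
      apply hzj
      have : (ζ j)⁻¹ * z = 1 := (sub_eq_zero.1 h).symm
      field_simp at this
      exact this
    have n9 : 1 - ζ i * z⁻¹ ≠ 0 := by
      intro h
      apply hzi
      have : ζ i * z⁻¹ = 1 := (sub_eq_zero.1 h).symm
      field_simp at this
      exact this.symm
    have e1 : 1 - (ζ j)⁻¹ * z = -(z - ζ j) / ζ j := by field_simp; ring
    have e2 : 1 - ζ i * z⁻¹ = (z - ζ i) / z := by field_simp
    simp only [hD]
    rw [e1, e2]
    generalize star (N i) = Ni at *
    generalize star (w i) = Wi at *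
    field_simp
    ring
  -- integrated relation
  have hrel : D 0 2 * ∫ t in (0 : ℝ)..(2 * Real.pi), φ (exp ((t : ℂ) * I)) *
        e 2 (exp ((t : ℂ) * I)) * star (e 0 (exp ((t : ℂ) * I))) =
      (D 0 1 * ∫ t in (0 : ℝ)..(2 * Real.pi), φ (exp ((t : ℂ) * I)) *
        e 1 (exp ((t : ℂ) * I)) * star (e 0 (exp ((t : ℂ) * I)))) +
      D 1 2 * ∫ t in (0 : ℝ)..(2 * Real.pi), φ (exp ((t : ℂ) * I)) *
        e 2 (exp ((t : ℂ) * I)) * star (e 1 (exp ((t : ℂ) * I))) := by
    rw [intervalIntegral.integral_of_le (by positivity),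
      intervalIntegral.integral_of_le (by positivity),
      intervalIntegral.integral_of_le (by positivity), ← integral_const_mul, ← integral_const_mul,
      ← integral_const_mul, ← integral_add ((hint 0 1).const_mul _) ((hint 1 2).const_mul _)]
    refine integral_congr_ae ?_
    filter_upwards [ae_ne (ζ 0), ae_ne (ζ 1), ae_ne (ζ 2)] with t h0 h1 h2
    set z := exp ((t : ℂ) * I) with hz
    have hz1 : ‖z‖ = 1 := norm_exp_I t
    have p1 := hpt 0 2 (by decide) z hz1 h0 h2
    have p2 := hpt 0 1 (by decide) z hz1 h0 h1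
    have p3 := hpt 1 2 (by decide) z hz1 h1 h2
    calc D 0 2 * (φ z * e 2 z * star (e 0 z)) = φ z * (D 0 2 * (e 2 z * star (e 0 z))) := by ring
      _ = φ z * (D 0 1 * (e 1 z * star (e 0 z)) + D 1 2 * (e 2 z * star (e 1 z))) := by
          rw [p1, p2, p3]; ring
      _ = _ := by ring
  have hpi : (1 / (2 * (Real.pi : ℂ))) ≠ 0 := by
    have : (Real.pi : ℂ) ≠ 0 := by exact_mod_cast Real.pi_ne_zero
    simp [this]
  have hent : ∀ i j, (1 / (2 * (Real.pi : ℂ))) * ∫ t in (0 : ℝ)..(2 * Real.pi),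
      φ (exp ((t : ℂ) * I)) * e j (exp ((t : ℂ) * I)) * star (e i (exp ((t : ℂ) * I))) = M₀ i j := by
    intro i j
    rw [← hM]
    rfl
  have h01 := hent 0 1
  have h12 := hent 1 2
  have h02 := hent 0 2
  have m01 : M₀ 0 1 = 0 := by simp [M₀]
  have m12 : M₀ 1 2 = 0 := by simp [M₀]
  have m02 : M₀ 0 2 = 1 := by simp [M₀]
  rw [m01] at h01
  rw [m12] at h12
  rw [m02] at h02
  rw [(mul_eq_zero.1 h01).resolve_left hpi, (mul_eq_zero.1 h12).resolve_left hpi, mul_zero,
    mul_zero, add_zero] at hrel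
  rw [(mul_eq_zero.1 hrel).resolve_left hD0, mul_zero] at h02
  exact zero_ne_one h02

/-! ### The example is unitarily equivalent to a truncated Toeplitz operator -/

theorem int_exp (k : ℤ) : ∫ t in (0 : ℝ)..(2 * Real.pi), exp ((k : ℂ) * (t : ℂ) * I) =
    if k = 0 then 2 * (Real.pi : ℂ) else 0 := by
  split_ifs with h
  · subst h
    simp
  · have hk : (k : ℂ) * I ≠ 0 := mul_ne_zero (by exact_mod_cast h) Complex.I_ne_zero
    have h1 : ∀ t : ℝ, exp ((k : ℂ) * (t : ℂ) * I) = exp ((k : ℂ) * I * (t : ℂ)) := by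
      intro t; congr 1; ring
    simp only [h1]
    rw [integral_exp_mul_complex hk]
    have h2 : exp ((k : ℂ) * I * ((2 * Real.pi : ℝ) : ℂ)) = 1 := by
      rw [Complex.exp_eq_one_iff]
      exact ⟨k, by push_cast; ring⟩
    rw [h2]
    simp

theorem entry {F : ℂ → ℂ} {c : Fin 7 → ℂ}
    (h : ∀ z, ‖z‖ = 1 → F z = (∑ k, c k * z ^ (k : ℕ)) / z ^ 3) :
    (1 / (2 * (Real.pi : ℂ))) * ∫ t in (0 : ℝ)..(2 * Real.pi), F (exp ((t : ℂ) * I)) = c 3 := by
  have hpi : (Real.pi : ℂ) ≠ 0 := by exact_mod_cast Real.pi_ne_zero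
  have h1 : ∀ t : ℝ, F (exp ((t : ℂ) * I)) =
      ∑ k : Fin 7, c k * exp ((((k : ℕ) : ℤ) - 3 : ℤ) * (t : ℂ) * I) := by
    intro t
    rw [h _ (norm_exp_I t), Finset.sum_div]
    refine Finset.sum_congr rfl fun k _ => ?_
    rw [mul_div_assoc]
    congr 1
    rw [← Complex.exp_nat_mul, ← Complex.exp_nat_mul, ← Complex.exp_sub]
    congr 1
    push_cast
    ring
  simp only [h1]
  rw [intervalIntegral.integral_finsetSum]
  · simp only [intervalIntegral.integral_const_mul, int_exp]
    rw [Finset.sum_eq_single 3]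
    · have : (((((3 : Fin 7) : ℕ) : ℤ) - 3 : ℤ)) = 0 := by decide
      rw [if_pos this]
      field_simp
    · intro k _ hk
      have : ¬ ((((k : ℕ) : ℤ) - 3 : ℤ)) = 0 := by
        intro h0
        apply hk
        ext
        have : ((3 : Fin 7) : ℕ) = 3 := rfl
        omega
      rw [if_neg this, mul_zero]
    · simp
  · intro k _
    apply Continuous.intervalIntegrable
    fun_prop

/-- the square root of two -/
noncomputable def r2 : ℂ := ((Real.sqrt 2 : ℝ) : ℂ)

theorem r2_sq : r2 * r2 = 2 := by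
  rw [r2, ← Complex.ofReal_mul, Real.mul_self_sqrt (by norm_num)]
  norm_num

theorem r2_ne : r2 ≠ 0 := by
  intro h
  have := r2_sq
  rw [h] at this
  norm_num at this

theorem star_r2 : star r2 = r2 := Complex.conj_ofReal _

theorem r2_inv : r2⁻¹ * r2⁻¹ = 1 / 2 := by
  rw [← mul_inv, r2_sq, one_div]

/-- the symbol -/
noncomputable def φ₀ (z : ℂ) : ℂ := (z + star z) * r2⁻¹

/-- the orthonormal basis -/
noncomputable def e₀ : Fin 3 → ℂ → ℂ :=
  ![fun z => z, fun z => (1 - z ^ 2) * r2⁻¹, fun z => (1 + z ^ 2) * r2⁻¹]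

theorem star_eq_inv {z : ℂ} (hz : ‖z‖ = 1) : star z = z⁻¹ :=
  eq_inv_of_mul_eq_one_left (star_mul_self_of_norm_one hz)

theorem ne_zero_of {z : ℂ} (hz : ‖z‖ = 1) : z ≠ 0 := by
  rintro rfl
  rw [norm_zero] at hz
  exact zero_ne_one hz

theorem star_r2_inv : star (r2⁻¹) = r2⁻¹ := by rw [star_inv₀, star_r2]

theorem se0 {z : ℂ} (hz : ‖z‖ = 1) : star (e₀ 0 z) = z⁻¹ := star_eq_inv hz

theorem se1 {z : ℂ} (hz : ‖z‖ = 1) : star (e₀ 1 z) = (1 - z⁻¹ ^ 2) * r2⁻¹ := by
  have : e₀ 1 z = (1 - z ^ 2) * r2⁻¹ := rfl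
  rw [this, star_mul', star_r2_inv, star_sub, star_one, star_pow, star_eq_inv hz]

theorem se2 {z : ℂ} (hz : ‖z‖ = 1) : star (e₀ 2 z) = (1 + z⁻¹ ^ 2) * r2⁻¹ := by
  have : e₀ 2 z = (1 + z ^ 2) * r2⁻¹ := rfl
  rw [this, star_mul', star_r2_inv, star_add, star_one, star_pow, star_eq_inv hz]

theorem v0 (z : ℂ) : e₀ 0 z = z := rfl
theorem v1 (z : ℂ) : e₀ 1 z = (1 - z ^ 2) * r2⁻¹ := rfl
theorem v2 (z : ℂ) : e₀ 2 z = (1 + z ^ 2) * r2⁻¹ := rfl

theorem vφ {z : ℂ} (hz : ‖z‖ = 1) : φ₀ z = (z + z⁻¹) * r2⁻¹ := by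
  rw [φ₀, star_eq_inv hz]

theorem orth (i j : Fin 3) : inner2 (e₀ j) (e₀ i) = if i = j then 1 else 0 := by
  set r := r2⁻¹ with hr
  have hrr : r * r = 1 / 2 := r2_inv
  fin_cases i <;> fin_cases j
  · refine (entry (F := fun z => e₀ 0 z * star (e₀ 0 z)) (c := ![0, 0, 0, 1, 0, 0, 0])
      fun z hz => ?_).trans ?_
    · have hz0 := ne_zero_of hz
      rw [se0 hz, v0]
      simp only [Fin.sum_univ_succ, ← hr]
      simp
      try field_simp
      try ring
    · simp [hrr]
  · refine (entry (F := fun z => e₀ 1 z * star (e₀ 0 z)) (c := ![0, 0, r, 0, -r, 0, 0])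
      fun z hz => ?_).trans ?_
    · have hz0 := ne_zero_of hz
      rw [se0 hz, v1]
      simp only [Fin.sum_univ_succ, ← hr]
      simp
      try field_simp
      try ring
    · simp [hrr]
  · refine (entry (F := fun z => e₀ 2 z * star (e₀ 0 z)) (c := ![0, 0, r, 0, r, 0, 0])
      fun z hz => ?_).trans ?_
    · have hz0 := ne_zero_of hz
      rw [se0 hz, v2]
      simp only [Fin.sum_univ_succ, ← hr]
      simp
      try field_simp
      try ring
    · simp [hrr]
  · refine (entry (F := fun z => e₀ 0 z * star (e₀ 1 z)) (c := ![0, 0, -r, 0, r, 0, 0])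
      fun z hz => ?_).trans ?_
    · have hz0 := ne_zero_of hz
      rw [se1 hz, v0]
      simp only [Fin.sum_univ_succ, ← hr]
      simp
      try field_simp
      try ring
    · simp [hrr]
  · refine (entry (F := fun z => e₀ 1 z * star (e₀ 1 z)) (c := ![0, -(r * r), 0, 2 * (r * r), 0, -(r * r), 0])
      fun z hz => ?_).trans ?_
    · have hz0 := ne_zero_of hz
      rw [se1 hz, v1]
      simp only [Fin.sum_univ_succ, ← hr]
      simp
      try field_simp
      try ring
    · simp [hrr]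
  · refine (entry (F := fun z => e₀ 2 z * star (e₀ 1 z)) (c := ![0, -(r * r), 0, 0, 0, r * r, 0])
      fun z hz => ?_).trans ?_
    · have hz0 := ne_zero_of hz
      rw [se1 hz, v2]
      simp only [Fin.sum_univ_succ, ← hr]
      simp
      try field_simp
      try ring
    · simp [hrr]
  · refine (entry (F := fun z => e₀ 0 z * star (e₀ 2 z)) (c := ![0, 0, r, 0, r, 0, 0])
      fun z hz => ?_).trans ?_
    · have hz0 := ne_zero_of hz
      rw [se2 hz, v0]
      simp only [Fin.sum_univ_succ, ← hr]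
      simp
      try field_simp
      try ring
    · simp [hrr]
  · refine (entry (F := fun z => e₀ 1 z * star (e₀ 2 z)) (c := ![0, r * r, 0, 0, 0, -(r * r), 0])
      fun z hz => ?_).trans ?_
    · have hz0 := ne_zero_of hz
      rw [se2 hz, v1]
      simp only [Fin.sum_univ_succ, ← hr]
      simp
      try field_simp
      try ring
    · simp [hrr]
  · refine (entry (F := fun z => e₀ 2 z * star (e₀ 2 z)) (c := ![0, r * r, 0, 2 * (r * r), 0, r * r, 0])
      fun z hz => ?_).trans ?_
    · have hz0 := ne_zero_of hz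
      rw [se2 hz, v2]
      simp only [Fin.sum_univ_succ, ← hr]
      simp
      try field_simp
      try ring
    · simp [hrr]

theorem entries (i j : Fin 3) : inner2 (fun z => φ₀ z * e₀ j z) (e₀ i) = M₀ i j := by
  set r := r2⁻¹ with hr
  have hrr : r * r = 1 / 2 := r2_inv
  fin_cases i <;> fin_cases j
  · refine (entry (F := fun z => φ₀ z * e₀ 0 z * star (e₀ 0 z)) (c := ![0, 0, r, 0, r, 0, 0])
      fun z hz => ?_).trans ?_
    · have hz0 := ne_zero_of hz
      rw [se0 hz, v0, vφ hz]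
      simp only [Fin.sum_univ_succ, ← hr]
      simp
      try field_simp
      try ring
    · simp [hrr, M₀]
  · refine (entry (F := fun z => φ₀ z * e₀ 1 z * star (e₀ 0 z)) (c := ![0, r * r, 0, 0, 0, -(r * r), 0])
      fun z hz => ?_).trans ?_
    · have hz0 := ne_zero_of hz
      rw [se0 hz, v1, vφ hz]
      simp only [Fin.sum_univ_succ, ← hr]
      simp
      try field_simp
      try ring
    · simp [hrr, M₀]
  · refine (entry (F := fun z => φ₀ z * e₀ 2 z * star (e₀ 0 z)) (c := ![0, r * r, 0, 2 * (r * r), 0, r * r, 0])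
      fun z hz => ?_).trans ?_
    · have hz0 := ne_zero_of hz
      rw [se0 hz, v2, vφ hz]
      simp only [Fin.sum_univ_succ, ← hr]
      simp
      try field_simp
      try ring
    · simp [hrr, M₀]
  · refine (entry (F := fun z => φ₀ z * e₀ 0 z * star (e₀ 1 z)) (c := ![0, -(r * r), 0, 0, 0, r * r, 0])
      fun z hz => ?_).trans ?_
    · have hz0 := ne_zero_of hz
      rw [se1 hz, v0, vφ hz]
      simp only [Fin.sum_univ_succ, ← hr]
      simp
      try field_simp
      try ring
    · simp [hrr, M₀]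
  · refine (entry (F := fun z => φ₀ z * e₀ 1 z * star (e₀ 1 z)) (c := ![-(r ^ 3), 0, r ^ 3, 0, r ^ 3, 0, -(r ^ 3)])
      fun z hz => ?_).trans ?_
    · have hz0 := ne_zero_of hz
      rw [se1 hz, v1, vφ hz]
      simp only [Fin.sum_univ_succ, ← hr]
      simp
      try field_simp
      try ring
    · simp [hrr, M₀]
  · refine (entry (F := fun z => φ₀ z * e₀ 2 z * star (e₀ 1 z)) (c := ![-(r ^ 3), 0, -(r ^ 3), 0, r ^ 3, 0, r ^ 3])
      fun z hz => ?_).trans ?_
    · have hz0 := ne_zero_of hz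
      rw [se1 hz, v2, vφ hz]
      simp only [Fin.sum_univ_succ, ← hr]
      simp
      try field_simp
      try ring
    · simp [hrr, M₀]
  · refine (entry (F := fun z => φ₀ z * e₀ 0 z * star (e₀ 2 z)) (c := ![0, r * r, 0, 2 * (r * r), 0, r * r, 0])
      fun z hz => ?_).trans ?_
    · have hz0 := ne_zero_of hz
      rw [se2 hz, v0, vφ hz]
      simp only [Fin.sum_univ_succ, ← hr]
      simp
      try field_simp
      try ring
    · simp [hrr, M₀]
  · refine (entry (F := fun z => φ₀ z * e₀ 1 z * star (e₀ 2 z)) (c := ![r ^ 3, 0, r ^ 3, 0, -(r ^ 3), 0, -(r ^ 3)])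
      fun z hz => ?_).trans ?_
    · have hz0 := ne_zero_of hz
      rw [se2 hz, v1, vφ hz]
      simp only [Fin.sum_univ_succ, ← hr]
      simp
      try field_simp
      try ring
    · simp [hrr, M₀]
  · refine (entry (F := fun z => φ₀ z * e₀ 2 z * star (e₀ 2 z)) (c := ![r ^ 3, 0, 3 * r ^ 3, 0, 3 * r ^ 3, 0, r ^ 3])
      fun z hz => ?_).trans ?_
    · have hz0 := ne_zero_of hz
      rw [se2 hz, v2, vφ hz]
      simp only [Fin.sum_univ_succ, ← hr]
      simp
      try field_simp
      try ring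
    · simp [hrr, M₀]

theorem ue : UnitarilyEquivalentToTTO M₀ := by
  refine ⟨fun _ => 0, φ₀, e₀, by simp, ?_, ?_, orth, ?_⟩
  · have hc : Continuous fun t : ℝ => φ₀ (exp ((t : ℂ) * I)) := by
      unfold φ₀
      have : Continuous fun t : ℝ => star (exp ((t : ℂ) * I)) :=
        continuous_star.comp (by fun_prop)
      fun_prop
    refine memLp_top_of_bound hc.aestronglyMeasurable (2 * ‖r2⁻¹‖)
      (Filter.Eventually.of_forall fun t => ?_)
    unfold φ₀
    rw [norm_mul]
    refine mul_le_mul_of_nonneg_right ?_ (norm_nonneg _)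
    calc ‖exp ((t : ℂ) * I) + star (exp ((t : ℂ) * I))‖
        ≤ ‖exp ((t : ℂ) * I)‖ + ‖star (exp ((t : ℂ) * I))‖ := norm_add_le _ _
      _ = 2 := by rw [norm_star, norm_exp_I]; norm_num
  · intro j
    fin_cases j
    · refine ⟨Polynomial.X, ?_, ?_⟩
      · rw [Polynomial.degree_X]; norm_num
      · funext z; simp [e₀]
    · refine ⟨Polynomial.C (r2⁻¹) * (1 - Polynomial.X ^ 2), ?_, ?_⟩
      · refine lt_of_le_of_lt (Polynomial.degree_mul_le _ _) ?_
        have h1 : (Polynomial.C (r2⁻¹)).degree ≤ 0 := Polynomial.degree_C_le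
        have h2 : (1 - Polynomial.X ^ 2 : Polynomial ℂ).degree ≤ 2 := by
          refine (Polynomial.degree_sub_le _ _).trans ?_
          rw [Polynomial.degree_X_pow]
          exact max_le (Polynomial.degree_one_le.trans (by norm_num)) (by norm_num)
        exact lt_of_le_of_lt (add_le_add h1 h2) (by norm_num)
      · funext z; simp [e₀]; ring
    · refine ⟨Polynomial.C (r2⁻¹) * (1 + Polynomial.X ^ 2), ?_, ?_⟩
      · refine lt_of_le_of_lt (Polynomial.degree_mul_le _ _) ?_
        have h1 : (Polynomial.C (r2⁻¹)).degree ≤ 0 := Polynomial.degree_C_le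
        have h2 : (1 + Polynomial.X ^ 2 : Polynomial ℂ).degree ≤ 2 := by
          refine (Polynomial.degree_add_le _ _).trans ?_
          rw [Polynomial.degree_X_pow]
          exact max_le (Polynomial.degree_one_le.trans (by norm_num)) (by norm_num)
        exact lt_of_le_of_lt (add_le_add h1 h2) (by norm_num)
      · funext z; simp [e₀]; ring
  · ext i j
    exact entries i j

/-- **Theorem.** There is a complex symmetric 3 × 3 matrix which is unitarily equivalent to a
truncated Toeplitz operator but is not the matrix of any truncated Toeplitz operator with respect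
to any modified Aleksandrov-Clark basis. -/
theorem result : ∃ M : Matrix (Fin 3) (Fin 3) ℂ, Matrix.transpose M = M ∧
    UnitarilyEquivalentToTTO M ∧ ¬ FromClarkBasis M := by
  refine ⟨M₀, ?_, ue, not_from_clark⟩
  ext i j
  fin_cases i <;> fin_cases j <;> simp [M₀]

end Pool.Agent.Results.MP_3119c3_an.NotFromClarkBasis
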